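import Pool.Agent.Helper79.SA.Goals

/-!
# Packet CLO: closing off under countable operations
-/

open Cardinal Ordinal Set

noncomputable section

namespace SA.PkCLO

variable {K T : Type}

/-- The stages of the construction. -/
def st (r0 : Set K) (F : (ℕ → Option K) → T → ℕ → K) (i : Ordinal.{0}) : Set K :=
  let S := ⋃ j < i, st r0 F j
  r0 ∪ Set.range fun z : (ℕ → Option S) × T × ℕ =>
    F (fun k => (z.1 k).map Subtype.val) z.2.1 z.2.2
termination_by i

theorem subset_st (r0 : Set K) (F : (ℕ → Option K) → T → ℕ → K) (i : Ordinal.{0}) :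
    r0 ⊆ st r0 F i := by
  unfold st
  exact subset_union_left

theorem mem_st (r0 : Set K) (F : (ℕ → Option K) → T → ℕ → K) (i : Ordinal.{0})
    (ρ : ℕ → Option K) (h : ∀ k c, ρ k = some c → ∃ j < i, c ∈ st r0 F j) (t : T) (n : ℕ) :
    F ρ t n ∈ st r0 F i := by
  classical
  unfold st
  refine mem_union_right _ ?_
  have h1 : ∀ k, ∃ o : Option (⋃ j < i, st r0 F j : Set K), o.map Subtype.val = ρ k := by
    intro k
    cases hk : ρ k with
    | none => exact ⟨none, rfl⟩
    | some c =>
      obtain ⟨j, hj, hc⟩ := h k c hk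
      exact ⟨some ⟨c, mem_iUnion₂.2 ⟨j, hj, hc⟩⟩, rfl⟩
  choose o ho using h1
  refine ⟨(o, t, n), ?_⟩
  have : (fun k => (o k).map Subtype.val) = ρ := funext ho
  simp only [this]

theorem card_st (r0 : Set K) (F : (ℕ → Option K) → T → ℕ → K) (hT : #T ≤ 𝔠)
    (hr : r0.Countable) (i : Ordinal.{0}) : i < ω₁ → #(st r0 F i) ≤ 𝔠 := by
  induction i using WellFoundedLT.induction with
  | _ i IH =>
  intro hi
  have hC : #(⋃ j < i, st r0 F j : Set K) ≤ 𝔠 := by
    refine mk_biUnion_le_of_le ?_ aleph0_le_continuum _ fun j hj => IH j hj (hj.trans hi)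
    have h1 : i.card < ℵ₁ := by
      rw [← lt_ord, ord_aleph]
      exact hi
    exact h1.le.trans aleph_one_le_continuum
  rw [st]
  refine (mk_union_le _ _).trans (add_le_of_le aleph0_le_continuum ?_ ?_)
  · exact (le_aleph0_iff_set_countable.mpr hr).trans aleph0_le_continuum
  · refine mk_range_le.trans ?_
    simp only [mk_prod, Cardinal.lift_id, mk_pi, prod_const, mk_nat]
    have h1 : #(Option (⋃ j < i, st r0 F j : Set K)) ≤ 𝔠 := by
      rw [mk_option]
      exact add_le_of_le aleph0_le_continuum hC (one_le_aleph0.trans aleph0_le_continuum)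
    have h2 : #(Option (⋃ j < i, st r0 F j : Set K)) ^ ℵ₀ ≤ 𝔠 :=
      (power_le_power_right h1).trans continuum_power_aleph0.le
    refine (mul_le_mul' h2 (mul_le_mul' hT aleph0_le_continuum)).trans ?_
    rw [continuum_mul_self, continuum_mul_self]

theorem clo : G_CLO := by
  intro K T r0 F hT hr
  refine ⟨⋃ j < (ω₁ : Ordinal.{0}), st r0 F j, ?_, ?_, ?_⟩
  · intro x hx
    exact mem_iUnion₂.2 ⟨0, omega_pos 1, subset_st r0 F 0 hx⟩
  · refine mk_biUnion_le_of_le ?_ aleph0_le_continuum _ fun j hj => card_st r0 F hT hr j hj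
    rw [card_omega]
    exact aleph_one_le_continuum
  · intro ρ h t n
    have h1 : ∀ k, ∃ i < (ω₁ : Ordinal.{0}), ∀ c, ρ k = some c → c ∈ st r0 F i := by
      intro k
      cases hk : ρ k with
      | none => exact ⟨0, omega_pos 1, by simp⟩
      | some c =>
        obtain ⟨i, hi, hc⟩ := mem_iUnion₂.1 (h k c hk)
        exact ⟨i, hi, by rintro c' h'; cases h'; exact hc⟩
    choose I hI hc using h1
    refine mem_iUnion₂.2 ⟨⨆ k, (I k + 1), ?_, mem_st r0 F _ ρ ?_ t n⟩
    · refine Ordinal.lift_iSup_add_one_lt_of_lt_cof ?_ hI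
      simp
    · intro k c hk
      exact ⟨I k, Ordinal.lt_iSup_add_one I k, hc k c hk⟩

end SA.PkCLO
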